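import Pool.Agent.H418.CO.Base
import Pool.Graph.R_seed8.Y76.NQ.Expl

/-!
# One germ of a curve for all monomial collisions of fat points

Let `Y` be the subscheme of the plane with the ideal `(y - q(x), (x - c) ^ r) ^ m`. The vanishing
`H⁰(I_Y(d)) = 0` for `d ≤ m √r`, `r > 9`, holds for general `Y` over every field. It holds for all `r`
and all `m` at the same time along ONE germ `y = a_0 + a_1 x + a_2 x ^ 2 + ...`, as soon as the
coefficients are algebraically independent over the prime field, for instance for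
`a_k = exp (2 ^ (1 / 2 ^ (k + 1)))` over `ℂ`. For `d ≥ m √r` the dimension of `H⁰(I_Y(d))` is the
expected one up to `(r - √r) m / 2`.
-/

set_option autoImplicit false

namespace Pool.Agent.Results.MP_cea741_ag.OneGermAllCollisions

open Polynomial
open Pool.Agent.H932R2 (jetIdeal deh)
open Pool.Agent.H932R3 (NoForm)

universe u

/-- the ideal `(y - q(x), (x - c) ^ r) ^ m` of `k[x][y]`, where `q = ∑ a_j x ^ j`, `j < r`: the ideal
of the subscheme `Y` in the affine plane -/
noncomputable def collision {k : Type u} [Field k] (r m : ℕ) (c : k) (a : Fin r → k) :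
    Ideal k[X][X] :=
  (Ideal.span {X - C (∑ j : Fin r, C (a j) * X ^ (j : ℕ)), C ((X - C c) ^ r)}) ^ m

/-- the polynomial `P(x, y, 1)` of `k[x][y]` -/
noncomputable def affine {k : Type u} [Field k] (P : MvPolynomial (Fin 3) k) : k[X][X] :=
  MvPolynomial.aeval ![C X, X, 1] P

/-- the space `H⁰(I_Y(d))` of the forms `P` of degree `d` with `P(x, y, 1)` in the ideal `I` of `Y` -/
noncomputable def sections {k : Type u} [Field k] (I : Ideal k[X][X]) (d : ℕ) :
    Submodule k (MvPolynomial (Fin 3) k) where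
  carrier := {P | P.IsHomogeneous d ∧ affine P ∈ I}
  add_mem' := by
    rintro P Q ⟨hP, hP'⟩ ⟨hQ, hQ'⟩
    refine ⟨hP.add hQ, ?_⟩
    have h : affine (P + Q) = affine P + affine Q :=
      map_add (MvPolynomial.aeval ![C X, X, 1] : MvPolynomial (Fin 3) k →ₐ[k] k[X][X]) P Q
    rw [h]
    exact I.add_mem hP' hQ'
  zero_mem' := by
    refine ⟨MvPolynomial.isHomogeneous_zero _ _ _, ?_⟩
    have h : affine (0 : MvPolynomial (Fin 3) k) = 0 :=
      map_zero (MvPolynomial.aeval ![C X, X, 1] : MvPolynomial (Fin 3) k →ₐ[k] k[X][X])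
    rw [h]
    exact I.zero_mem
  smul_mem' := by
    rintro c P ⟨hP, hP'⟩
    refine ⟨(MvPolynomial.homogeneousSubmodule (Fin 3) k d).smul_mem c hP, ?_⟩
    have h : affine (c • P) = c • affine P :=
      map_smul (MvPolynomial.aeval ![C X, X, 1] : MvPolynomial (Fin 3) k →ₐ[k] k[X][X]) c P
    rw [h]
    exact (Submodule.restrictScalars k I).smul_mem c hP'

/-- the assertions about a subscheme with the ideal `I`, a collision of `r` points of multiplicity
`m`: there is no curve of degree `d ≤ m √r` through it, and for `d ≥ m √r` the dimension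
`h⁰(I_Y(d))` is the expected one, up to `(r - √r) m / 2` -/
structure Nagata {k : Type u} [Field k] (r m : ℕ) (I : Ideal k[X][X]) : Prop where
  empty : ∀ d : ℕ, (d : ℝ) ≤ m * Real.sqrt r → sections I d = ⊥
  lower : ∀ d : ℕ, ((d + 2).choose 2 : ℝ) - r * (m + 1).choose 2 ≤ Module.finrank k (sections I d)
  upper : ∀ d : ℕ, m * Real.sqrt r ≤ d → (Module.finrank k (sections I d) : ℝ) ≤
    ((d + 2).choose 2 : ℝ) - r * (m + 1).choose 2 + (r - Real.sqrt r) / 2 * m

/-- the `a_j` are algebraically independent over the prime field: no polynomial with integral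
coefficients, not all of them zero in `K`, vanishes at `a` -/
def Generic {K : Type u} [Field K] (a : ℕ → K) : Prop :=
  ∀ D : MvPolynomial ℕ ℤ, MvPolynomial.map (Int.castRingHom K) D ≠ 0 →
    MvPolynomial.aeval a D ≠ 0

theorem sections_eq {k : Type u} [Field k] (I : Ideal k[X][X]) (d : ℕ) :
    sections I d = Pool.Agent.H418.CO.forms I d := by
  ext P
  rfl

theorem choose_real (n : ℕ) : ((n + 2).choose 2 : ℝ) = ((n : ℝ) + 1) * (n + 2) / 2 := by
  have h := Pool.Agent.H932R2.card_Tfin n
  rw [Pool.Agent.H418.CO.card_Tfin_choose] at h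
  have h' : (2 : ℝ) * ((n + 2).choose 2 : ℝ) = ((n : ℝ) + 1) * (n + 2) := by exact_mod_cast h
  linarith

theorem choose_real' (m : ℕ) : ((m + 1).choose 2 : ℝ) = (m : ℝ) * (m + 1) / 2 := by
  rcases m with _ | n
  · simp
  · rw [show n + 1 + 1 = n + 2 by rfl, choose_real]
    push_cast
    ring

theorem nagata_of {k : Type u} [Field k] {r m : ℕ} {c : k} {a : Fin r → k}
    (h : ∀ d : ℕ, (d : ℝ) ≤ m * Real.sqrt r → NoForm (jetIdeal m c a) d) :
    Nagata r m (collision r m c a) := by
  refine ⟨fun d hd => ?_, fun d => ?_, fun d hd => ?_⟩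
  · rw [eq_bot_iff]
    rintro P ⟨hP, hP'⟩
    exact h d hd P ((MvPolynomial.mem_homogeneousSubmodule _ _).2 hP) hP'
  · have h1 := Pool.Agent.H418.CO.lower r m c a d
    have h2 : ((d + 2).choose 2 : ℝ) ≤
        Module.finrank k ↥(Pool.Agent.H418.CO.forms (jetIdeal m c a) d) +
          r * (m + 1).choose 2 := by exact_mod_cast h1
    rw [sections_eq]
    change _ ≤ (Module.finrank k ↥(Pool.Agent.H418.CO.forms (jetIdeal m c a) d) : ℝ)
    linarith
  · have hpos : 0 ≤ m * Real.sqrt r := by positivity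
    obtain ⟨D, hD⟩ : ∃ D : ℕ, D = ⌊m * Real.sqrt r⌋₊ := ⟨_, rfl⟩
    have hD1 : (D : ℝ) ≤ m * Real.sqrt r := by rw [hD]; exact Nat.floor_le hpos
    have hD2 : m * Real.sqrt r < D + 1 := by rw [hD]; exact Nat.lt_floor_add_one _
    have hDd : D ≤ d := by
      have : (D : ℝ) ≤ d := hD1.trans hd
      exact_mod_cast this
    have h1 := Pool.Agent.H418.CO.upper (h D hD1) hDd
    have h2 : (Module.finrank k ↥(Pool.Agent.H418.CO.forms (jetIdeal m c a) d) : ℝ) +
        (D + 2).choose 2 ≤ (d + 2).choose 2 := by exact_mod_cast h1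
    rw [sections_eq]
    change (Module.finrank k ↥(Pool.Agent.H418.CO.forms (jetIdeal m c a) d) : ℝ) ≤ _
    have h3 := choose_real D
    have h4 := choose_real' m
    have h5 : (m * Real.sqrt r) * (m * Real.sqrt r + 1) ≤ ((D : ℝ) + 1) * (D + 2) := by
      have h6 : m * Real.sqrt r + 1 ≤ (D : ℝ) + 2 := by linarith
      have h7 : (0 : ℝ) ≤ m * Real.sqrt r + 1 := by linarith
      have h8 : (0 : ℝ) ≤ (D : ℝ) + 1 := by positivity
      exact mul_le_mul hD2.le h6 h7 h8
    have h6 : (m * Real.sqrt r) * (m * Real.sqrt r) = (m : ℝ) ^ 2 * r := by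
      rw [mul_mul_mul_comm, Real.mul_self_sqrt (Nat.cast_nonneg r)]
      ring
    nlinarith

/-- **Nagata's inequality for monomial collisions.**

(1) Let `k` be any field, `r > 9`, `m ≥ 1`. For all `(c, a)` outside a hypersurface of the space
`k ^ (r + 1)` of all parameters, the collision `Y` with the ideal `(y - ∑ a_j x ^ j, (x - c) ^ r) ^ m`
satisfies `H⁰(I_Y(d)) = 0` for all `d ≤ m √r`, and
`0 ≤ h⁰(I_Y(d)) - (d + 2).choose 2 + r (m + 1).choose 2 ≤ (r - √r) m / 2` for all `d ≥ m √r`.

(2) Let the `a_j`, `j ≥ 0`, be algebraically independent over the prime field of `K`. Then this is so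
for the collisions with the ideals `(y - a(x), x ^ r) ^ m`, `a(x) = a_0 + a_1 x + a_2 x ^ 2 + ...`, for
all `r > 9` and all `m ≥ 1` at once.

(3) It is so, for all `r > 9` and all `m ≥ 1` at once, for the series `a(x)` over `ℂ` with the
coefficients `a_j = exp (2 ^ (1 / 2 ^ (j + 1)))`. -/
theorem result :
    (∀ (k : Type u) [Field k] (r m : ℕ), 9 < r → 1 ≤ m →
      ∃ F : MvPolynomial (Fin (r + 1)) k, F ≠ 0 ∧ ∀ (c : k) (a : Fin r → k),
        MvPolynomial.eval (Fin.cons c a : Fin (r + 1) → k) F ≠ 0 →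
          Nagata r m (collision r m c a)) ∧
    (∀ (K : Type u) [Field K] (a : ℕ → K), Generic a → ∀ r m : ℕ, 9 < r → 1 ≤ m →
      Nagata r m (collision r m 0 (fun j : Fin r => a j))) ∧
    (∀ r m : ℕ, 9 < r → 1 ≤ m →
      Nagata r m (collision r m (0 : ℂ)
        (fun j : Fin r => ((Real.exp ((2 : ℝ) ^ ((1 : ℝ) / 2 ^ ((j : ℕ) + 1))) : ℝ) : ℂ)))) := by
  refine ⟨?_, ?_, ?_⟩
  · intro k _ r m hr hm
    obtain ⟨F, hF, h⟩ := Pool.Agent.H418.CO.general (k := k) hr hm
    exact ⟨F, hF, fun c a hca => nagata_of fun d hd => h c a hca d hd⟩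
  · intro K _ a ha r m hr hm
    exact nagata_of fun d hd => Pool.Agent.H418.CO.generic_empty ha hr hm hd
  · intro r m hr hm
    refine nagata_of fun d hd => Pool.Agent.H418.CO.generic_empty
      (a := fun j : ℕ => ((Real.exp ((2 : ℝ) ^ ((1 : ℝ) / 2 ^ (j + 1))) : ℝ) : ℂ)) ?_ hr hm hd
    intro D hD h0
    apply hD
    have h1 := Pool.Agent.Y76.NQ.algInd_germ
    rw [algebraicIndependent_iff] at h1
    have h2 := h1 (MvPolynomial.map (Int.castRingHom ℚ) D) (by
      rw [← h0, MvPolynomial.aeval_def, MvPolynomial.eval₂_map, MvPolynomial.aeval_def]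
      congr 1)
    ext α
    rw [MvPolynomial.coeff_map, MvPolynomial.coeff_zero]
    have h3 := congrArg (MvPolynomial.coeff α) h2
    rw [MvPolynomial.coeff_map, MvPolynomial.coeff_zero] at h3
    have h4 : MvPolynomial.coeff α D = 0 := by
      have : ((MvPolynomial.coeff α D : ℤ) : ℚ) = 0 := h3
      exact_mod_cast this
    rw [h4, map_zero]

end Pool.Agent.Results.MP_cea741_ag.OneGermAllCollisions
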